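import Pool.Agent.Q252.GB.Zeros

set_option autoImplicit false

/-! Project GB (helper286), job CNT (helper252): zeros in unit intervals with multiplicity. -/

namespace Pool.Agent.Q252.GB

open Complex MeasureTheory Filter Topology Set
open scoped ComplexConjugate
open Pool.Agent.Q286.BD (cl Lam ML Lap Wt V Fm Pl)
open Pool.Agent.Q286.GB

theorem Lam_pos (t : ℝ) : 0 < Lam t := by
  unfold Lam
  apply Real.log_pos
  have := abs_nonneg t
  linarith

theorem Lam_le (T : ℝ) : Lam T ≤ 4 * Real.log (|T| + 2) := by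
  unfold Lam
  have h0 := abs_nonneg T
  have h1 : |T| + 16 ≤ 8 * (|T| + 2) := by linarith
  have h2 : Real.log (|T| + 16) ≤ Real.log (8 * (|T| + 2)) := Real.log_le_log (by linarith) h1
  have h3 : Real.log (8 * (|T| + 2)) = 3 * Real.log 2 + Real.log (|T| + 2) := by
    rw [Real.log_mul (by norm_num) (by linarith), show (8 : ℝ) = 2 ^ 3 by norm_num, Real.log_pow]
    norm_num
  have h4 : Real.log 2 ≤ Real.log (|T| + 2) := Real.log_le_log (by norm_num) (by linarith)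
  linarith

/-- summability of `log ^ 2 / k ^ 2` -/
theorem summ_log : Summable (fun k : ℤ => (Lam k) ^ 2 * (1 / (1 + (k : ℝ) ^ 2))) := by
  have h1 : Summable (fun k : ℤ => |((k : ℤ) : ℝ)| ^ (-(3 / 2) : ℝ)) :=
    Real.summable_abs_int_rpow (by norm_num)
  refine Summable.of_norm_bounded_eventually (h1.mul_left 4352) ?_
  rw [Filter.eventually_cofinite]
  refine (Set.finite_singleton (0 : ℤ)).subset ?_
  intro k hk
  by_contra hne
  apply hk
  have hk0 : (1 : ℝ) ≤ |(k : ℝ)| := by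
    have : k ≠ 0 := hne
    have h2 : (1 : ℤ) ≤ |k| := Int.one_le_abs this
    exact_mod_cast h2
  set x : ℝ := |(k : ℝ)| with hx
  have hx0 : 0 < x := by linarith
  have hsq : (k : ℝ) ^ 2 = x ^ 2 := (sq_abs _).symm
  rw [Real.norm_of_nonneg (by positivity), hsq]
  have hl : Lam k ≤ (x + 16) ^ (1 / 4 : ℝ) / (1 / 4) := by
    unfold Lam
    exact Real.log_le_rpow_div (by positivity) (by norm_num)
  have hl2 : Lam k ^ 2 ≤ 16 * (x + 16) ^ (1 / 2 : ℝ) := by
    have h3 := pow_le_pow_left₀ (Lam_pos k).le hl 2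
    have h4 : ((x + 16) ^ (1 / 4 : ℝ) / (1 / 4)) ^ 2 = 16 * (x + 16) ^ (1 / 2 : ℝ) := by
      rw [div_pow, ← Real.rpow_natCast, ← Real.rpow_mul (by positivity)]
      norm_num
      ring
    linarith
  have h5 : (x + 16) ^ (1 / 2 : ℝ) ≤ 17 * x ^ (1 / 2 : ℝ) := by
    have h6 : (x + 16) ^ (1 / 2 : ℝ) ≤ (17 * x) ^ (1 / 2 : ℝ) :=
      Real.rpow_le_rpow (by positivity) (by linarith) (by norm_num)
    rw [Real.mul_rpow (by norm_num) hx0.le] at h6
    have h7 : (17 : ℝ) ^ (1 / 2 : ℝ) ≤ 17 := by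
      calc (17 : ℝ) ^ (1 / 2 : ℝ) ≤ 17 ^ (1 : ℝ) := Real.rpow_le_rpow_of_exponent_le (by norm_num) (by norm_num)
        _ = 17 := Real.rpow_one _
    exact h6.trans (mul_le_mul_of_nonneg_right h7 (by positivity))
  have h8 : 1 / (1 + x ^ 2) ≤ x ^ (-2 : ℝ) := by
    rw [Real.rpow_neg hx0.le, ← one_div]
    have : x ^ (2 : ℝ) = x ^ 2 := by rw [← Real.rpow_natCast]; norm_num
    rw [this]
    exact one_div_le_one_div_of_le (by positivity) (by linarith)
  calc Lam k ^ 2 * (1 / (1 + x ^ 2)) ≤ (16 * (17 * x ^ (1 / 2 : ℝ))) * x ^ (-2 : ℝ) := by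
        apply mul_le_mul _ h8 (by positivity) (by positivity)
        linarith
    _ = 272 * x ^ (-(3 / 2) : ℝ) := by
        rw [show (-(3 / 2) : ℝ) = 1 / 2 + (-2) by norm_num, Real.rpow_add hx0]; ring
    _ ≤ 4352 * x ^ (-(3 / 2) : ℝ) := by
        apply mul_le_mul_of_nonneg_right (by norm_num) (by positivity)

theorem t_CNT (h1 : S_POS) (h2 : S_FB) : S_CNT := by
  classical
  intro O hRH
  have hX := fun s hs => ((h1 O hRH).1 s hs).1
  obtain ⟨C, hC, -, hFB⟩ := h2 O hRH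
  have hB : ∀ (T : ℝ) (S : Finset ℝ), (∀ g ∈ S, T ≤ g ∧ g ≤ T + 1) →
      ∑ g ∈ S, (mz O.toLFn g : ℝ) ≤ 2 * (C * Lam T) := by
    intro T S hS
    refine mult_bound O hX T (C * Lam T) ?_ S hS
    have := hFB T 1 one_pos (by norm_num)
    rw [div_one] at this
    exact (Complex.re_le_norm _).trans this
  have hcard : ∀ (T : ℝ) (S : Finset ℝ), (∀ g ∈ S, g ∈ Z O.toLFn ∧ T ≤ g ∧ g ≤ T + 1) →
      (S.card : ℝ) ≤ 2 * (C * Lam T) := by
    intro T S hS
    refine le_trans ?_ (hB T S fun g hg => (hS g hg).2)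
    rw [Finset.card_eq_sum_ones, Nat.cast_sum]
    apply Finset.sum_le_sum
    intro g hg
    exact_mod_cast mz_pos O.toLFn (hS g hg).1
  constructor
  · refine ⟨2 * (C * 4), fun T => ?_⟩
    have hfin : (Z O.toLFn ∩ Icc T (T + 1)).Finite := by
      by_contra hinf
      obtain ⟨N, hN⟩ := exists_nat_gt (2 * (C * Lam T))
      obtain ⟨S, hSsub, hScard⟩ := Set.Infinite.exists_subset_card_eq hinf N
      have := hcard T S (fun g hg => by
        have hm := hSsub hg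
        exact ⟨hm.1, hm.2.1, hm.2.2⟩)
      rw [hScard] at this
      linarith
    refine ⟨hfin, ?_⟩
    have h3 := hcard T hfin.toFinset (fun g hg => by
      have hm := hfin.mem_toFinset.mp hg
      exact ⟨hm.1, hm.2.1, hm.2.2⟩)
    rw [Set.ncard_eq_toFinset_card _ hfin]
    refine h3.trans ?_
    have h4 := mul_le_mul_of_nonneg_left (Lam_le T) hC.le
    linarith
  · -- summability
    set f : Z O.toLFn → ℝ := fun g => (mz O.toLFn g : ℝ) ^ 2 / (1 / 4 + (g : ℝ) ^ 2) with hf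
    set a : ℤ → ℝ := fun k => 48 * C ^ 2 * ((Lam k) ^ 2 * (1 / (1 + (k : ℝ) ^ 2))) with ha
    have hsa : Summable a := summ_log.mul_left _
    have ha0 : ∀ k, 0 ≤ a k := fun k => by positivity
    have hf0 : ∀ g, 0 ≤ f g := fun g => by positivity
    refine summable_of_sum_le hf0 (c := ∑' k, a k) fun S => ?_
    have hfib : ∑ g ∈ S, f g = ∑ k ∈ S.image (fun g : Z O.toLFn => ⌊(g : ℝ)⌋),
        ∑ g ∈ S with ⌊((g : Z O.toLFn) : ℝ)⌋ = k, f g :=
      (Finset.sum_fiberwise_of_maps_to (fun g hg => Finset.mem_image_of_mem _ hg) f).symm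
    rw [hfib]
    refine le_trans (Finset.sum_le_sum fun k _ => ?_) (hsa.sum_le_tsum _ fun k _ => ha0 k)
    -- one fibre
    set U := S.filter (fun g : Z O.toLFn => ⌊(g : ℝ)⌋ = k) with hU
    have hUm : ∀ g ∈ U, (k : ℝ) ≤ g ∧ (g : ℝ) ≤ k + 1 := by
      intro g hg
      have h5 := (Finset.mem_filter.mp hg).2
      constructor
      · rw [← h5]; exact Int.floor_le _
      · rw [← h5]; exact (Int.lt_floor_add_one _).le
    have h6 : ∑ g ∈ U, (mz O.toLFn (g : ℝ) : ℝ) ≤ 2 * (C * Lam k) := by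
      have h7 := hB k (U.map (Function.Embedding.subtype _)) (fun g hg => by
        obtain ⟨g', hg', rfl⟩ := Finset.mem_map.mp hg
        exact hUm g' hg')
      rw [Finset.sum_map] at h7
      exact h7
    have h8 : ∀ g ∈ U, f g ≤ (12 / (1 + (k : ℝ) ^ 2) * ∑ g ∈ U, (mz O.toLFn (g : ℝ) : ℝ)) * (mz O.toLFn (g : ℝ) : ℝ) := by
      intro g hg
      obtain ⟨h9, h10⟩ := hUm g hg
      have h11 : (mz O.toLFn (g : ℝ) : ℝ) ≤ ∑ g ∈ U, (mz O.toLFn (g : ℝ) : ℝ) :=
        Finset.single_le_sum (f := fun g : Z O.toLFn => (mz O.toLFn (g : ℝ) : ℝ)) (fun _ _ => Nat.cast_nonneg _) hg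
      have h12 : 1 / (1 / 4 + (g : ℝ) ^ 2) ≤ 12 / (1 + (k : ℝ) ^ 2) := by
        rw [div_le_div_iff₀ (by positivity) (by positivity)]
        have h13 : (k : ℝ) ^ 2 ≤ 2 * (g : ℝ) ^ 2 + 2 := by
          have : ((g : ℝ) - k) ^ 2 ≤ 1 := by nlinarith
          nlinarith [sq_nonneg ((g : ℝ) + ((g : ℝ) - k))]
        nlinarith
      simp only [hf]
      rw [div_eq_mul_one_div, pow_two]
      calc (mz O.toLFn (g : ℝ) : ℝ) * (mz O.toLFn (g : ℝ) : ℝ) * (1 / (1 / 4 + (g : ℝ) ^ 2)) ≤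
          (∑ g ∈ U, (mz O.toLFn (g : ℝ) : ℝ)) * (mz O.toLFn (g : ℝ) : ℝ) * (12 / (1 + (k : ℝ) ^ 2)) := by
            apply mul_le_mul _ h12 (by positivity) (by positivity)
            exact mul_le_mul_of_nonneg_right h11 (Nat.cast_nonneg _)
        _ = _ := by ring
    refine (Finset.sum_le_sum h8).trans ?_
    rw [← Finset.mul_sum]
    have h14 : 0 ≤ ∑ g ∈ U, (mz O.toLFn (g : ℝ) : ℝ) := Finset.sum_nonneg fun _ _ => Nat.cast_nonneg _
    have h15 : (∑ g ∈ U, (mz O.toLFn (g : ℝ) : ℝ)) ^ 2 ≤ (2 * (C * Lam k)) ^ 2 := pow_le_pow_left₀ h14 h6 2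
    calc 12 / (1 + (k : ℝ) ^ 2) * (∑ g ∈ U, (mz O.toLFn (g : ℝ) : ℝ)) * ∑ g ∈ U, (mz O.toLFn (g : ℝ) : ℝ)
        = 12 / (1 + (k : ℝ) ^ 2) * (∑ g ∈ U, (mz O.toLFn (g : ℝ) : ℝ)) ^ 2 := by ring
      _ ≤ 12 / (1 + (k : ℝ) ^ 2) * (2 * (C * Lam k)) ^ 2 := mul_le_mul_of_nonneg_left h15 (by positivity)
      _ = a k := by simp only [ha]; ring

end Pool.Agent.Q252.GB
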