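import Pool.Agent.Q286.GB.Stm

set_option autoImplicit false

/-! Project GB (helper286), job MONO (helper252). -/

namespace Pool.Agent.Q252.GB

open Complex MeasureTheory Filter Topology Set
open Pool.Agent.Q286.BD (cl Lam ML Lap Wt V Fm Pl)
open Pool.Agent.Q286.GB

theorem t_MONO (h : S_POS) : S_MONO := by
  intro O hRH
  obtain ⟨C, hC, hg⟩ := O.γ_ld 2
  refine ⟨max C 1, by positivity, ?_⟩
  intro t x hx0 hx1
  have hη := O.η_pos
  -- points
  have ecl : cl t = 1 / 2 + (0 : ℝ) + t * I := by simp [cl]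
  have hre : ∀ y : ℝ, ((1 / 2 : ℂ) + (y : ℝ) + t * I).re = 1 / 2 + y := by
    intro y; simp
  have him : ∀ y : ℝ, ((1 / 2 : ℂ) + (y : ℝ) + t * I).im = t := by
    intro y; simp
  have hX := (h O hRH).2.2 0 x t le_rfl hx0.le
  have hgr : ‖O.γ (1 / 2 + x + t * I)‖ ≤ ‖O.γ (cl t)‖ * Real.exp (C * Lam t * x) := by
    have key := norm_le_gronwallBound_of_norm_deriv_right_le
      (f := fun y : ℝ => O.γ (1 / 2 + (y : ℝ) + t * I))
      (f' := fun y : ℝ => deriv O.γ (1 / 2 + (y : ℝ) + t * I))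
      (δ := ‖O.γ (cl t)‖) (K := C * Lam t) (ε := 0) (a := 0) (b := x) ?_ ?_ ?_ ?_ x ⟨hx0.le, le_rfl⟩
    · rw [gronwallBound_ε0, sub_zero] at key
      exact key
    · intro y hy
      have hd : DifferentiableAt ℂ O.γ (1 / 2 + (y : ℝ) + t * I) := O.γ_diff _ (by rw [hre]; linarith [hy.1])
      have hl : ContinuousAt (fun y : ℝ => (1 / 2 + (y : ℝ) + t * I : ℂ)) y := by fun_prop
      exact (ContinuousAt.comp (f := fun y : ℝ => (1 / 2 + (y : ℝ) + t * I : ℂ)) hd.continuousAt hl).continuousWithinAt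
    · intro y hy
      have hd : DifferentiableAt ℂ O.γ (1 / 2 + (y : ℝ) + t * I) := O.γ_diff _ (by rw [hre]; linarith [hy.1])
      have hl : HasDerivAt (fun z : ℂ => (1 / 2 + z + t * I : ℂ)) 1 ((y : ℝ) : ℂ) := by
        have := ((hasDerivAt_id ((y : ℝ) : ℂ)).const_add (1 / 2)).add_const (t * I)
        simpa using this
      have hc : HasDerivAt (fun z : ℂ => O.γ (1 / 2 + z + t * I))
          (deriv O.γ (1 / 2 + (y : ℝ) + t * I) * 1) ((y : ℝ) : ℂ) :=
        HasDerivAt.comp (h := fun z : ℂ => (1 / 2 + z + t * I : ℂ)) ((y : ℝ) : ℂ) hd.hasDerivAt hl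
      have := hc.comp_ofReal
      simp only [mul_one] at this
      exact this.hasDerivWithinAt
    · rw [ecl]
    · intro y hy
      have := hg (1 / 2 + (y : ℝ) + t * I) (by rw [hre]; linarith [hy.1]) (by rw [hre]; linarith [hy.2])
      rw [him] at this
      rw [add_zero]
      exact this
  have e1 := O.eq (cl t) (by rw [ecl, hre]; linarith)
  have e2 := O.eq (1 / 2 + x + t * I) (by rw [hre]; linarith)
  have hgne := O.γ_ne (cl t) (by rw [ecl, hre]; linarith)
  have hgpos : 0 < ‖O.γ (cl t)‖ := norm_pos_iff.mpr hgne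
  rw [← ecl, e1, e2, norm_mul, norm_mul] at hX
  have h3 : ‖O.γ (cl t)‖ * ‖O.L (cl t)‖ ≤ ‖O.γ (cl t)‖ * (Real.exp (C * Lam t * x) * ‖O.L (1 / 2 + x + t * I)‖) := by
    calc _ ≤ _ := hX
      _ ≤ (‖O.γ (cl t)‖ * Real.exp (C * Lam t * x)) * ‖O.L (1 / 2 + x + t * I)‖ :=
        mul_le_mul_of_nonneg_right hgr (norm_nonneg _)
      _ = _ := by ring
  have h4 := le_of_mul_le_mul_left h3 hgpos
  have hLam : 0 ≤ Lam t := by
    unfold Lam
    apply Real.log_nonneg
    have := abs_nonneg t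
    linarith
  have h5 : Real.exp (C * Lam t * x) ≤ max C 1 * Real.exp (max C 1 * (x * Lam t)) := by
    have e5 : C * Lam t * x ≤ max C 1 * (x * Lam t) := by
      have : C * Lam t * x = C * (x * Lam t) := by ring
      rw [this]
      exact mul_le_mul_of_nonneg_right (le_max_left _ _) (by positivity)
    calc Real.exp (C * Lam t * x) ≤ Real.exp (max C 1 * (x * Lam t)) := Real.exp_le_exp.mpr e5
      _ = 1 * Real.exp (max C 1 * (x * Lam t)) := by ring
      _ ≤ _ := mul_le_mul_of_nonneg_right (le_max_right _ _) (Real.exp_pos _).le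
  exact h4.trans (mul_le_mul_of_nonneg_right h5 (norm_nonneg _))

end Pool.Agent.Q252.GB
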