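import Pool.Agent.Q286.GB.Stm
import Pool.Agent.Q153.BD.Per

set_option autoImplicit false

/-! Project GB (helper286), job PER (helper252): adapted from Pool.Agent.Q153.BD.Per. -/

namespace Pool.Agent.Q252.GB

open Complex MeasureTheory Filter Topology Set
open Pool.Agent.Q286.BD (cl Lam ML Lap Wt V Fm Pl)
open Pool.Agent.Q286.GB
open Pool.Agent.Q153.BD

theorem term_norm_le (f : ℕ → ℂ) {s : ℂ} (hs : 2 ≤ s.re) (n : ℕ) :
    ‖LSeries.term f s n‖ ≤ ‖f n‖ * (n : ℝ) ^ (-2 : ℝ) := by
  rw [LSeries.norm_term_eq]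
  split_ifs with hn
  · positivity
  · have hn1 : (1 : ℝ) ≤ n := by exact_mod_cast Nat.one_le_iff_ne_zero.mpr hn
    rw [div_eq_mul_inv, ← Real.rpow_neg (by positivity)]
    exact mul_le_mul_of_nonneg_left (Real.rpow_le_rpow_of_exponent_le hn1 (by linarith)) (norm_nonneg _)

theorem summ_of (f : ℕ → ℂ) (h : Summable (fun n : ℕ => ‖f n‖ * (n : ℝ) ^ (-2 : ℝ))) {s : ℂ}
    (hs : 2 ≤ s.re) : LSeriesSummable f s :=
  Summable.of_norm_bounded h (term_norm_le f hs)

theorem lser_eq (O : LFn) {s : ℂ} (hs : 2 ≤ s.re) : LSeries O.lam s = O.L s := by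
  rw [LSeries, ← (O.ser s hs).tsum_eq]
  apply tsum_congr
  intro n
  rcases eq_or_ne n 0 with rfl | hn
  · rw [LSeries.term_zero, O.lam_zero, zero_mul]
  · rw [LSeries.term_of_ne_zero hn, Complex.cpow_neg, div_eq_mul_inv]

/-- the inverse of `L` is the Dirichlet series with coefficients `mu` -/
theorem inv_eq (O : LFn) {s : ℂ} (hs : 2 ≤ s.re) : LSeries O.mu s = (O.L s)⁻¹ := by
  have h1 := summ_of O.lam O.lam_sum hs
  have h2 := summ_of O.mu O.mu_sum hs
  have h3 := LSeries_convolution' h1 h2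
  have h4 : (LSeries.convolution O.lam O.mu) = LSeries.delta := by
    funext n
    rw [LSeries.convolution_def]
    simp only
    rcases eq_or_ne n 0 with rfl | hn
    · simp [LSeries.delta]
    · rw [O.inv n (Nat.one_le_iff_ne_zero.mpr hn)]
      simp [LSeries.delta]
  rw [h4, LSeries_delta, lser_eq O hs] at h3
  exact eq_inv_of_mul_eq_one_right h3.symm

theorem t_PER : S_PER := by
  intro O β φ hβ h L a s hL ha hs
  set G : ℝ → ℂ := fun y => Lap φ (a + y * I) / (a + y * I) with hG
  have hGi : Integrable G := G_int hβ h ha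
  set w : ℝ → ℂ := fun y => s + (a + y * I) / L with hw
  have hLc : (L : ℂ) ≠ 0 := by exact_mod_cast hL.ne'
  have hwre : ∀ y, (w y).re = s.re + a / L := by
    intro y
    simp only [hw]
    rw [Complex.add_re, Complex.div_ofReal_re]
    simp
  set μf : ℕ → ℂ := O.mu with hμ
  set F : ℕ → ℝ → ℂ := fun n y => LSeries.term μf (w y) n * G y with hF
  -- norms
  have hnorm : ∀ n y, ‖LSeries.term μf (w y) n‖ = ‖LSeries.term μf ((s.re + a / L : ℝ) : ℂ) n‖ := by
    intro n y
    rw [LSeries.norm_term_eq, LSeries.norm_term_eq, hwre, Complex.ofReal_re]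
  have hsum : LSeriesSummable μf ((s.re + a / L : ℝ) : ℂ) :=
    summ_of O.mu O.mu_sum (by rw [Complex.ofReal_re]; exact hs.le)
  -- values of the terms
  have hterm : ∀ n : ℕ, n ≠ 0 → ∀ y, LSeries.term μf (w y) n =
      μf n * (n : ℂ) ^ (-s) * cexp (-((a + y * I) * (Real.log n / L : ℝ))) := by
    intro n hn y
    have hnc : (n : ℂ) ≠ 0 := by exact_mod_cast hn
    rw [LSeries.term_of_ne_zero hn, div_eq_mul_inv, ← Complex.cpow_neg]
    simp only [hw]
    rw [neg_add, Complex.cpow_add _ _ hnc, ← mul_assoc]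
    congr 1
    rw [Complex.cpow_def_of_ne_zero hnc, ← Complex.natCast_log]
    congr 1
    push_cast
    ring
  have hFi : ∀ n, Integrable (F n) := by
    intro n
    refine hGi.bdd_mul (c := ‖LSeries.term μf ((s.re + a / L : ℝ) : ℂ) n‖) ?_
      (Eventually.of_forall fun y => (hnorm n y).le)
    rcases eq_or_ne n 0 with rfl | hn
    · simp only [LSeries.term_zero]
      exact aestronglyMeasurable_const
    · simp only [hterm n hn]
      refine Continuous.aestronglyMeasurable ?_
      fun_prop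
  have hFs : Summable fun n => ∫ y, ‖F n y‖ := by
    have e : (fun n => ∫ y, ‖F n y‖) = fun n =>
        ‖LSeries.term μf ((s.re + a / L : ℝ) : ℂ) n‖ * ∫ y, ‖G y‖ := by
      funext n
      simp only [hF, norm_mul, hnorm]
      rw [integral_const_mul]
    rw [e]
    exact hsum.norm.mul_right _
  have hmain := (hasSum_integral_of_summable_integral_norm hFi hFs).tsum_eq
  -- the sum inside
  have hin : ∀ y, ∑' n, F n y = (O.L (w y))⁻¹ * Lap φ (a + y * I) / (a + y * I) := by
    intro y
    simp only [hF]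
    rw [tsum_mul_right]
    have h1 : ∑' n, LSeries.term μf (w y) n = (O.L (w y))⁻¹ :=
      inv_eq O (by rw [hwre]; exact hs.le)
    rw [h1, hG, mul_div_assoc]
  simp only [hin] at hmain
  rw [← hmain]
  -- the finite sum
  have hval : ∀ n : ℕ, 1 / (2 * (Real.pi : ℂ)) * ∫ y, F n y =
      μf n * ((V φ (Real.log n / L) : ℝ) : ℂ) * (n : ℂ) ^ (-s) := by
    intro n
    rcases eq_or_ne n 0 with rfl | hn
    · simp only [hF, LSeries.term_zero, hμ, O.mu_zero]
      simp
    · simp only [hF, hterm n hn]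
      have e : ∀ y : ℝ, μf n * (n : ℂ) ^ (-s) *
          cexp (-((a + y * I) * (Real.log n / L : ℝ))) * G y =
          (μf n * (n : ℂ) ^ (-s)) *
          (cexp (-((a + y * I) * (Real.log n / L : ℝ))) * G y) := fun y => by ring
      simp only [e]
      rw [integral_const_mul, V_inv hβ h ha (Real.log n / L)]
      ring
  rw [← tsum_mul_left]
  simp only [hval]
  unfold AA
  symm
  refine tsum_eq_sum fun n hn => ?_
  rw [Finset.mem_Icc, not_and_or, not_le, not_le] at hn
  rcases hn with hn | hn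
  · have : n = 0 := by omega
    rw [this, hμ, O.mu_zero]
    simp
  · have h1 : Real.exp L < n := (Nat.floor_lt' (by omega)).mp hn
    have h2 : V φ (Real.log n / L) = 0 := by
      refine V_zero h ?_
      rw [le_div_iff₀ hL, one_mul, Real.le_log_iff_exp_le (lt_trans (Real.exp_pos L) h1)]
      exact h1.le
    rw [h2]
    simp

end Pool.Agent.Q252.GB
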