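import Pool.Agent.Q286.GB.Stm
import Pool.Agent.Q252.GB.Per
import Pool.Agent.W613.HF.Step

set_option autoImplicit false

/-! Project GB (helper286), job CNT, part 1 (helper252): division by zeros on the line. -/

namespace Pool.Agent.Q252.GB

open Complex MeasureTheory Filter Topology Set
open scoped ComplexConjugate
open Pool.Agent.Q286.BD (cl Lam ML Lap Wt V Fm Pl)
open Pool.Agent.Q286.GB

/-- slow entire functions with a functional equation and without zeros on the right of the line -/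
structure G1 (f : ℂ → ℂ) : Prop where
  diff : Differentiable ℂ f
  slow : ∀ δ : ℝ, 0 < δ → ∃ K : ℝ, 0 < K ∧ ∀ z : ℂ, ‖f z‖ ≤ K * Real.exp (δ * ‖z‖ ^ 2)
  fe : ∃ ε : ℂ, ∀ s : ℂ, f s = ε * conj (f (1 - conj s))
  zer : ∀ s : ℂ, f s = 0 → s.re ≤ 1 / 2

theorem G1.re_nonneg {f : ℂ → ℂ} (h : G1 f) (hne : ∃ z, f z ≠ 0) {s : ℂ} (hs : 1 / 2 < s.re) :
    0 ≤ (deriv f s / f s).re := by
  have hS : Pool.Agent.W169.HF.Slow f := ⟨h.diff, h.slow⟩
  refine Pool.Agent.W613.HF.re_nonneg (b := 0) (f := f)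
    ⟨h.diff, h.fe, Pool.Agent.W613.HF.slow_growth hS, fun s hs => by simpa using h.zer s hs⟩ hne
    (by simpa using hs)

theorem G1.step {f : ℂ → ℂ} (h : G1 f) {ρ : ℂ} (hρ : ρ.re = 1 / 2) (h0 : f ρ = 0) :
    G1 (dslope f ρ) ∧ ∀ s, f s = (s - ρ) * dslope f ρ s := by
  have hmul : ∀ s, f s = (s - ρ) * dslope f ρ s := by
    intro s
    have := sub_smul_dslope f ρ s
    rw [smul_eq_mul, h0, sub_zero] at this
    exact this.symm
  have hd : Differentiable ℂ (dslope f ρ) := by
    have := (Complex.differentiableOn_dslope (s := univ) (c := ρ) univ_mem (f := f)).mpr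
      h.diff.differentiableOn
    exact differentiableOn_univ.mp this
  have hρc : 1 - conj ρ = ρ := by
    apply Complex.ext
    · simp [hρ]; norm_num
    · simp
  refine ⟨⟨hd, ?_, ?_, ?_⟩, hmul⟩
  · intro δ hδ
    obtain ⟨K, hK, hb⟩ := h.slow δ hδ
    obtain ⟨M, hM⟩ := (isCompact_closedBall ρ 1).exists_bound_of_continuousOn hd.continuous.continuousOn
    refine ⟨max K M, lt_max_of_lt_left hK, fun z => ?_⟩
    have hexp : 1 ≤ Real.exp (δ * ‖z‖ ^ 2) := Real.one_le_exp (by positivity)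
    rcases le_total ‖z - ρ‖ 1 with hz | hz
    · have h1 := hM z (by rw [Metric.mem_closedBall, dist_eq_norm]; exact hz)
      have h2 : M ≤ max K M := le_max_right _ _
      have h3 : 0 ≤ max K M := hK.le.trans (le_max_left _ _)
      calc ‖dslope f ρ z‖ ≤ max K M * 1 := by linarith
        _ ≤ _ := mul_le_mul_of_nonneg_left hexp h3
    · have h1 := hb z
      have h2 : ‖dslope f ρ z‖ ≤ ‖f z‖ := by
        rw [hmul z, norm_mul]
        exact le_mul_of_one_le_left (norm_nonneg _) hz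
      calc ‖dslope f ρ z‖ ≤ K * Real.exp (δ * ‖z‖ ^ 2) := h2.trans h1
        _ ≤ _ := mul_le_mul_of_nonneg_right (le_max_left _ _) (Real.exp_pos _).le
  · obtain ⟨ε, he⟩ := h.fe
    refine ⟨-ε, ?_⟩
    have hc2 : Continuous fun s : ℂ => -ε * conj (dslope f ρ (1 - conj s)) := by
      have := hd.continuous
      fun_prop
    have := Continuous.ext_on (dense_compl_singleton ρ) hd.continuous hc2 (fun s hs => by
      have hs' : s - ρ ≠ 0 := sub_ne_zero.mpr hs
      have h1 := he s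
      rw [hmul s, hmul (1 - conj s), map_mul] at h1
      have h2 : conj (1 - conj s - ρ) = -(s - ρ) := by
        rw [map_sub, map_sub, map_one, Complex.conj_conj]
        linear_combination hρc
      rw [h2] at h1
      apply mul_left_cancel₀ hs'
      rw [h1]; ring)
    exact fun s => congrFun this s
  · intro s hs
    apply h.zer
    rw [hmul s, hs, mul_zero]

theorem G1.pow {ρ : ℂ} (hρ : ρ.re = 1 / 2) : ∀ (m : ℕ) {f : ℂ → ℂ}, G1 f →
    (m : ℕ∞) ≤ analyticOrderAt f ρ → ∃ g, G1 g ∧ ∀ s, f s = (s - ρ) ^ m * g s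
  | 0, f, h, _ => ⟨f, h, by simp⟩
  | m + 1, f, h, hm => by
    have h0 : f ρ = 0 := by
      apply apply_eq_zero_of_analyticOrderAt_ne_zero
      intro h1
      rw [h1] at hm
      simp at hm
    obtain ⟨hD, hmul⟩ := h.step hρ h0
    have e : f = (fun s => s - ρ) * dslope f ρ := by
      funext s
      rw [Pi.mul_apply]
      exact hmul s
    have ho : analyticOrderAt f ρ = 1 + analyticOrderAt (dslope f ρ) ρ := by
      conv_lhs => rw [e]
      rw [analyticOrderAt_mul (by fun_prop) (hD.diff.analyticAt ρ), analyticOrderAt_id_sub_const_self]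
    rw [ho, Nat.cast_add, Nat.cast_one, add_comm 1 _] at hm
    have hm' := (ENat.add_le_add_iff_right (by simp)).mp hm
    obtain ⟨g, hg, hgm⟩ := G1.pow hρ m hD hm'
    refine ⟨g, hg, fun s => ?_⟩
    rw [hmul s, hgm s, pow_succ]; ring

theorem cl_re (g : ℝ) : (cl g).re = 1 / 2 := by simp [cl]

theorem cl_inj {a b : ℝ} (h : cl a = cl b) : a = b := by
  have := congrArg Complex.im h
  simpa [cl] using this

theorem G1.fin (m : ℝ → ℕ) (S : Finset ℝ) : ∀ {f : ℂ → ℂ}, G1 f →
    (∀ g ∈ S, (m g : ℕ∞) ≤ analyticOrderAt f (cl g)) →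
    ∃ h, G1 h ∧ ∀ s, f s = (∏ g ∈ S, (s - cl g) ^ (m g)) * h s := by
  classical
  induction S using Finset.induction_on with
  | empty =>
    intro f hf _
    exact ⟨f, hf, by simp⟩
  | insert a S ha ih =>
    intro f hf hm
    obtain ⟨f1, h1, e1⟩ := G1.pow (cl_re a) (m a) hf (hm a (Finset.mem_insert_self a S))
    have hm' : ∀ g ∈ S, (m g : ℕ∞) ≤ analyticOrderAt f1 (cl g) := by
      intro g hg
      have hne : cl g ≠ cl a := fun h => by
        rw [cl_inj h] at hg
        exact ha hg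
      have h2 := hm g (Finset.mem_insert_of_mem hg)
      have e : f = ((fun s => s - cl a) ^ (m a)) * f1 := by
        funext s
        rw [Pi.mul_apply, Pi.pow_apply]
        exact e1 s
      have ho : analyticOrderAt f (cl g) = analyticOrderAt f1 (cl g) := by
        conv_lhs => rw [e]
        rw [analyticOrderAt_mul (by fun_prop) (h1.diff.analyticAt _), analyticOrderAt_pow (by fun_prop),
          analyticOrderAt_id_sub_const_of_ne hne]
        simp
      rwa [ho] at h2
    obtain ⟨h, hh, e2⟩ := ih h1 hm'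
    refine ⟨h, hh, fun s => ?_⟩
    rw [e1 s, e2 s, Finset.prod_insert ha]; ring

theorem Obj.toG1 (O : Obj) (hX : ∀ s : ℂ, 1 / 2 < s.re → O.X s ≠ 0) : G1 O.X := by
  obtain ⟨ε, _, hε⟩ := O.fe
  refine ⟨O.diff, O.slow, ⟨ε, hε⟩, fun s hs => ?_⟩
  by_contra hcon
  exact hX s (not_le.mp hcon) hs

theorem L_two_ne (O : LFn) : O.L 2 ≠ 0 := by
  have h1 := summ_of O.lam O.lam_sum (s := 2) (by simp)
  have h2 := summ_of O.mu O.mu_sum (s := 2) (by simp)
  have h3 := LSeries_convolution' h1 h2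
  have h4 : (LSeries.convolution O.lam O.mu) = LSeries.delta := by
    funext n
    rw [LSeries.convolution_def]
    simp only
    rcases eq_or_ne n 0 with rfl | hn
    · simp [LSeries.delta]
    · rw [O.inv n (Nat.one_le_iff_ne_zero.mpr hn)]
      simp [LSeries.delta]
  rw [h4, LSeries_delta, lser_eq O (s := 2) (by simp)] at h3
  intro h0
  rw [h0] at h3
  simp at h3

theorem order_L_ne_top (O : LFn) (s : ℂ) : analyticOrderAt O.L s ≠ ⊤ := by
  have hL : AnalyticOnNhd ℂ O.L univ := fun x _ => O.entire.analyticAt x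
  refine hL.analyticOrderAt_ne_top_of_isPreconnected isPreconnected_univ (mem_univ 2) (mem_univ s) ?_
  rw [((hL 2 (mem_univ _)).analyticOrderAt_eq_zero).mpr (L_two_ne O)]
  simp

theorem order_X (O : Obj) (g : ℝ) : analyticOrderAt O.X (cl g) = analyticOrderAt O.L (cl g) := by
  have hη := O.η_pos
  have hopen : IsOpen {s : ℂ | 1 / 2 - O.η < s.re} := isOpen_lt continuous_const continuous_re
  have hmem : cl g ∈ {s : ℂ | 1 / 2 - O.η < s.re} := by
    show 1 / 2 - O.η < (cl g).re; rw [cl_re]; linarith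
  have hγ : AnalyticAt ℂ O.γ (cl g) := by
    have : DifferentiableOn ℂ O.γ {s : ℂ | 1 / 2 - O.η < s.re} := fun s hs =>
      (O.γ_diff s hs).differentiableWithinAt
    exact this.analyticAt (hopen.mem_nhds hmem)
  have e : O.X =ᶠ[𝓝 (cl g)] O.γ * O.L := by
    filter_upwards [hopen.mem_nhds hmem] with s hs
    exact O.eq s hs
  rw [analyticOrderAt_congr e, analyticOrderAt_mul hγ (O.entire.analyticAt _),
    hγ.analyticOrderAt_eq_zero.mpr (O.γ_ne _ hmem), zero_add]

theorem mz_cast (O : LFn) (g : ℝ) : ((mz O g : ℕ) : ℕ∞) = analyticOrderAt O.L (cl g) := by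
  unfold mz analyticOrderNatAt
  exact ENat.natCast_toNat (order_L_ne_top O (cl g))

theorem mz_pos (O : LFn) {g : ℝ} (hg : g ∈ Z O) : 1 ≤ mz O g := by
  have h1 : analyticOrderAt O.L (cl g) ≠ 0 := (O.entire.analyticAt (cl g)).analyticOrderAt_ne_zero.mpr hg
  rw [← mz_cast] at h1
  rw [Nat.one_le_iff_ne_zero]
  intro h
  rw [h] at h1
  simp at h1

/-- the sum of the multiplicities in a unit interval -/
theorem mult_bound (O : Obj) (hX : ∀ s : ℂ, 1 / 2 < s.re → O.X s ≠ 0) (T B : ℝ)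
    (hB : (deriv O.X (1 / 2 + (1 : ℝ) + T * I) / O.X (1 / 2 + (1 : ℝ) + T * I)).re ≤ B)
    (S : Finset ℝ) (hS : ∀ g ∈ S, T ≤ g ∧ g ≤ T + 1) : ∑ g ∈ S, (mz O.toLFn g : ℝ) ≤ 2 * B := by
  have hG := Obj.toG1 O hX
  obtain ⟨h, hh, he⟩ := G1.fin (mz O.toLFn) S hG (fun g _ => by rw [order_X, mz_cast])
  set s : ℂ := 1 / 2 + (1 : ℝ) + T * I with hs
  have hre : s.re = 3 / 2 := by simp [hs]; norm_num
  have hXs : O.X s ≠ 0 := hX s (by rw [hre]; norm_num)
  have hne : ∀ g, s - cl g ≠ 0 := by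
    intro g h0
    have := congrArg Complex.re h0
    rw [sub_re, hre, cl_re] at this
    norm_num at this
  have hhs : h s ≠ 0 := fun h0 => hXs (by rw [he s, h0, mul_zero])
  have hprod : ∏ g ∈ S, (s - cl g) ^ (mz O.toLFn g) ≠ 0 := fun h0 => hXs (by rw [he s, h0, zero_mul])
  have e1 : O.X = fun z => (∏ g ∈ S, (z - cl g) ^ (mz O.toLFn g)) * h z := funext he
  have hdp : DifferentiableAt ℂ (fun z : ℂ => ∏ g ∈ S, (z - cl g) ^ (mz O.toLFn g)) s := by fun_prop
  have hld : deriv O.X s / O.X s = ∑ g ∈ S, (mz O.toLFn g : ℂ) * (1 / (s - cl g)) + deriv h s / h s := by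
    have h1 : logDeriv O.X s = logDeriv (fun z : ℂ => ∏ g ∈ S, (z - cl g) ^ (mz O.toLFn g)) s + logDeriv h s := by
      rw [e1]
      exact logDeriv_mul s hprod hhs hdp (hh.diff s)
    have h2 : logDeriv (fun z : ℂ => ∏ g ∈ S, (z - cl g) ^ (mz O.toLFn g)) s =
        ∑ g ∈ S, logDeriv (fun z : ℂ => (z - cl g) ^ (mz O.toLFn g)) s :=
      logDeriv_prod (fun g _ => pow_ne_zero _ (hne g)) (fun g _ => by fun_prop)
    rw [h2, logDeriv_apply] at h1
    rw [h1, logDeriv_apply]
    congr 1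
    apply Finset.sum_congr rfl
    intro g _
    have h3 : logDeriv (fun z : ℂ => (z - cl g) ^ (mz O.toLFn g)) s =
        (mz O.toLFn g : ℂ) * logDeriv (fun z : ℂ => z - cl g) s :=
      logDeriv_fun_pow (by fun_prop) _
    rw [h3, logDeriv_apply]
    congr 2
    simp
  have hpos : 0 ≤ (deriv h s / h s).re := hh.re_nonneg ⟨s, hhs⟩ (by rw [hre]; norm_num)
  rw [hld, add_re, Complex.re_sum] at hB
  have hterm : ∀ g ∈ S, (mz O.toLFn g : ℝ) / 2 ≤ ((mz O.toLFn g : ℂ) * (1 / (s - cl g))).re := by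
    intro g hg
    obtain ⟨h1, h2⟩ := hS g hg
    have e2 : ((mz O.toLFn g : ℂ) * (1 / (s - cl g))).re = (mz O.toLFn g : ℝ) * (1 / (s - cl g)).re := by
      have : ((mz O.toLFn g : ℕ) : ℂ) = (((mz O.toLFn g : ℕ) : ℝ) : ℂ) := by push_cast; rfl
      rw [this, Complex.re_ofReal_mul]
    rw [e2, div_eq_mul_one_div]
    apply mul_le_mul_of_nonneg_left _ (Nat.cast_nonneg _)
    have e3 : (1 / (s - cl g)).re = 1 / (1 + (T - g) ^ 2) := by
      rw [one_div, Complex.inv_re]
      have r1 : (s - cl g).re = 1 := by rw [sub_re, hre, cl_re]; norm_num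
      have r2 : (s - cl g).im = T - g := by simp [hs, cl]
      rw [Complex.normSq_apply, r1, r2]
      ring_nf
    rw [e3]
    apply one_div_le_one_div_of_le (by positivity)
    nlinarith
  have hsum := Finset.sum_le_sum hterm
  rw [← Finset.sum_div] at hsum
  linarith

end Pool.Agent.Q252.GB
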